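import Pool.Agent.Helper19.LB.Defs

/-! # Piece F: fields -/

set_option autoImplicit false

open MeasureTheory Set Real
open scoped ContDiff RealInnerProductSpace

namespace Pool.Agent.Helper19.LB

theorem IsFld.add {k : ℕ} {α β : ℝ} {f g : Fld} (hf : IsFld k α β f) (hg : IsFld k α β g) :
    IsFld k α β (f.add g) where
  cont_c := hf.cont_c.add hg.cont_c
  cont_c1 := hf.cont_c1.add hg.cont_c1
  cont_w := hf.cont_w.add hg.cont_w
  cont_w1 := hf.cont_w1.add hg.cont_w1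
  cont_w2 := hf.cont_w2.add hg.cont_w2
  cont_P := hf.cont_P.add hg.cont_P
  cont_P1 := hf.cont_P1.add hg.cont_P1
  d_cr ρ hρ h := (hf.d_cr ρ hρ h).add (hg.d_cr ρ hρ h)
  d_ch ρ hρ h := by
    have := (hf.d_ch ρ hρ h).add (hg.d_ch ρ hρ h)
    refine this.congr_deriv ?_
    simp only [Fld.add]
    ring
  d_wr ρ hρ h := (hf.d_wr ρ hρ h).add (hg.d_wr ρ hρ h)
  d_wh ρ hρ h := (hf.d_wh ρ hρ h).add (hg.d_wh ρ hρ h)
  d_P ρ hρ h := (hf.d_P ρ hρ h).add (hg.d_P ρ hρ h)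

lemma contOn_scale {α β ε : ℝ} (hε : 0 < ε) {F : ℝ → ℝ → ℝ}
    (hF : ContinuousOn (fun x : Pt => F x.1 x.2) (Icc α β ×ˢ univ)) :
    ContinuousOn (fun x : Pt => F (x.1 / ε) (x.2 / ε)) (Icc (ε * α) (ε * β) ×ˢ univ) := by
  have h1 : ContinuousOn (fun x : Pt => ((x.1 / ε, x.2 / ε) : Pt))
      (Icc (ε * α) (ε * β) ×ˢ univ) := by
    apply Continuous.continuousOn
    fun_prop
  refine hF.comp h1 ?_
  rintro ⟨a, b⟩ ⟨⟨ha1, ha2⟩, -⟩
  refine ⟨⟨?_, ?_⟩, mem_univ _⟩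
  · show α ≤ a / ε
    rw [le_div_iff₀ hε, mul_comm]
    exact ha1
  · show a / ε ≤ β
    rw [div_le_iff₀ hε, mul_comm]
    exact ha2

lemma hasDerivAt_div_const_comp {F : ℝ → ℝ} {F' x ε : ℝ} (h : HasDerivAt F F' (x / ε)) :
    HasDerivAt (fun y => F (y / ε)) (F' / ε) x := by
  have h1 : HasDerivAt (fun y : ℝ => y / ε) (1 / ε) x := (hasDerivAt_id x).div_const ε
  have h2 := h.comp x h1
  refine h2.congr_deriv ?_
  ring

theorem IsFld.scale {k : ℕ} {α β ε : ℝ} (hε : 0 < ε) {f : Fld} (hf : IsFld k α β f) :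
    IsFld k (ε * α) (ε * β) (f.scale ε) := by
  have hmem : ∀ ρ ∈ Ioo (ε * α) (ε * β), ρ / ε ∈ Ioo α β := by
    rintro ρ ⟨h1, h2⟩
    constructor
    · rw [lt_div_iff₀ hε, mul_comm]
      exact h1
    · rw [div_lt_iff₀ hε, mul_comm]
      exact h2
  exact
  { cont_c := contOn_scale hε hf.cont_c
    cont_c1 := (contOn_scale hε hf.cont_c1).div_const _
    cont_w := (contOn_scale hε hf.cont_w).div_const _
    cont_w1 := (contOn_scale hε hf.cont_w1).div_const _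
    cont_w2 := (contOn_scale hε hf.cont_w2).div_const _
    cont_P := (contOn_scale hε hf.cont_P).div_const _
    cont_P1 := (contOn_scale hε hf.cont_P1).div_const _
    d_cr := fun ρ hρ h => hasDerivAt_div_const_comp (F := fun r => f.c r (h / ε))
      (hf.d_cr _ (hmem ρ hρ) (h / ε))
    d_ch := fun ρ hρ h => by
      have h1 := hasDerivAt_div_const_comp (F := fun t => f.c (ρ / ε) t)
        (hf.d_ch _ (hmem ρ hρ) (h / ε))
      refine h1.congr_deriv ?_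
      simp only [Fld.scale]
      field_simp
    d_wr := fun ρ hρ h => by
      have h1 := (hasDerivAt_div_const_comp (F := fun r => f.w r (h / ε))
        (hf.d_wr _ (hmem ρ hρ) (h / ε))).div_const ε
      refine h1.congr_deriv ?_
      simp only [Fld.scale]
      field_simp
    d_wh := fun ρ hρ h => by
      have h1 := (hasDerivAt_div_const_comp (F := fun t => f.w (ρ / ε) t)
        (hf.d_wh _ (hmem ρ hρ) (h / ε))).div_const ε
      refine h1.congr_deriv ?_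
      simp only [Fld.scale]
      field_simp
    d_P := fun ρ hρ h => by
      have h1 := (hasDerivAt_div_const_comp (F := fun r => f.P r (h / ε))
        (hf.d_P _ (hmem ρ hρ) (h / ε))).div_const ε
      refine h1.congr_deriv ?_
      simp only [Fld.scale]
      field_simp }

theorem isFld_flat (k : ℕ) (α β c₀ : ℝ) : IsFld k α β (Fld.flat c₀) where
  cont_c := continuousOn_const
  cont_c1 := continuousOn_const
  cont_w := continuousOn_const
  cont_w1 := continuousOn_const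
  cont_w2 := continuousOn_const
  cont_P := continuousOn_const
  cont_P1 := continuousOn_const
  d_cr ρ _ h := hasDerivAt_const _ _
  d_ch ρ _ h := by
    refine (hasDerivAt_const h c₀).congr_deriv ?_
    simp [Fld.flat]
  d_wr ρ _ h := hasDerivAt_const _ _
  d_wh ρ _ h := hasDerivAt_const _ _
  d_P ρ _ h := hasDerivAt_const _ _

theorem isFld_prod {k : ℕ} {α β l : ℝ} {f f' f'' g g' : ℝ → ℝ}
    (hf : ContinuousOn f (Icc α β)) (hf' : ContinuousOn f' (Icc α β))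
    (hf'' : ContinuousOn f'' (Icc α β)) (hg : ContinuousOn g (Icc α β))
    (hg' : ContinuousOn g' (Icc α β)) (df : ∀ ρ ∈ Ioo α β, HasDerivAt f (f' ρ) ρ)
    (df' : ∀ ρ ∈ Ioo α β, HasDerivAt f' (f'' ρ) ρ) (dg : ∀ ρ ∈ Ioo α β, HasDerivAt g (g' ρ) ρ) :
    IsFld k α β (Fld.prod k l f f' f'' g g') := by
  have cF : ∀ {F : ℝ → ℝ}, ContinuousOn F (Icc α β) →
      ContinuousOn (fun x : Pt => F x.1) (Icc α β ×ˢ univ) := fun hF =>
    hF.comp continuous_fst.continuousOn fun x hx => hx.1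
  have cR : ContinuousOn (fun x : Pt => x.1) (Icc α β ×ˢ univ) := continuous_fst.continuousOn
  have cE : ContinuousOn (fun x : Pt => exp (-l * x.2 ^ 2)) (Icc α β ×ˢ univ) := by
    apply Continuous.continuousOn
    fun_prop
  have cE2 : ContinuousOn (fun x : Pt => exp (-l * x.2 ^ 2 / 2)) (Icc α β ×ˢ univ) := by
    apply Continuous.continuousOn
    fun_prop
  have cL : ContinuousOn (fun x : Pt => 2 * l * x.2) (Icc α β ×ˢ univ) := by
    apply Continuous.continuousOn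
    fun_prop
  have cL2 : ContinuousOn (fun x : Pt => 2 * l - 4 * l ^ 2 * x.2 ^ 2) (Icc α β ×ˢ univ) := by
    apply Continuous.continuousOn
    fun_prop
  have dE : ∀ h : ℝ, HasDerivAt (fun t : ℝ => exp (-l * t ^ 2)) (exp (-l * h ^ 2) * (-(2 * l * h)))
      h := by
    intro h
    have h1 : HasDerivAt (fun t : ℝ => -l * t ^ 2) (-l * (2 * h)) h := by
      have := ((hasDerivAt_pow 2 h).const_mul (-l))
      refine this.congr_deriv ?_
      norm_num
    refine h1.exp.congr_deriv ?_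
    ring
  exact
  { cont_c := ((continuousOn_const.mul (cF hf)).add (cR.mul (cF hf'))).mul cE
    cont_c1 := ((continuousOn_const.mul (cF hf')).add (cR.mul (cF hf''))).mul cE
    cont_w := (cL.mul (cF hf)).mul cE
    cont_w1 := (cL.mul (cF hf')).mul cE
    cont_w2 := (cL2.mul (cF hf)).mul cE
    cont_P := (cF hg).mul cE2
    cont_P1 := (cF hg').mul cE2
    d_cr := fun ρ hρ h => by
      have h1 := ((((df ρ hρ).const_mul ((k : ℝ) - 1)).add
        ((hasDerivAt_id ρ).mul (df' ρ hρ))).mul_const (exp (-l * h ^ 2)))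
      refine h1.congr_deriv ?_
      simp only [Fld.prod, id]
      ring
    d_ch := fun ρ hρ h => by
      have h1 := (dE h).const_mul (((k : ℝ) - 1) * f ρ + ρ * f' ρ)
      refine h1.congr_deriv ?_
      simp only [Fld.prod]
      ring
    d_wr := fun ρ hρ h => ((df ρ hρ).const_mul (2 * l * h)).mul_const _
    d_wh := fun ρ hρ h => by
      have h1 := ((((hasDerivAt_id h).const_mul (2 * l)).mul_const (f ρ)).mul (dE h))
      refine h1.congr_deriv ?_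
      simp only [Fld.prod, id]
      ring
    d_P := fun ρ hρ h => (dg ρ hρ).mul_const _ }

/-- Superposition of quotients. -/
lemma add_sq_div_add_le {a b P Q : ℝ} (hP : 0 ≤ P) (hQ : 0 ≤ Q) (ha : P = 0 → a = 0)
    (hb : Q = 0 → b = 0) : (a + b) ^ 2 / (P + Q) ≤ a ^ 2 / P + b ^ 2 / Q := by
  rcases hP.eq_or_lt with h | h
  · rw [ha h.symm, ← h]
    simp
  rcases hQ.eq_or_lt with h' | h'
  · rw [hb h'.symm, ← h']
    simp
  have e : a ^ 2 / P + b ^ 2 / Q - (a + b) ^ 2 / (P + Q) =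
      (a * Q - b * P) ^ 2 / (P * Q * (P + Q)) := by
    field_simp
    ring
  have h0 : 0 ≤ (a * Q - b * P) ^ 2 / (P * Q * (P + Q)) := by positivity
  linarith

theorem Adm.add {k : ℕ} {b b' : ℝ} {f g : Fld} {ρ h : ℝ} (hρ : 0 < ρ) (hf : Adm k b f ρ h)
    (hg : Adm k b' g ρ h) : Adm k (b + b') (f.add g) ρ h := by
  have key := add_sq_div_add_le hf.nonneg hg.nonneg hf.zero hg.zero
  have hk : (0 : ℝ) ≤ k := Nat.cast_nonneg k
  refine ⟨?_, ?_, ?_, ?_⟩
  · exact add_nonneg hf.nonneg hg.nonneg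
  · intro h0
    have h1 : f.P ρ h + g.P ρ h = 0 := h0
    have h2 := hf.nonneg
    have h3 := hg.nonneg
    show f.w ρ h + g.w ρ h = 0
    rw [hf.zero (by linarith), hg.zero (by linarith), add_zero]
  · show ρ * ((f.w ρ h + g.w ρ h) ^ 2 / (f.P ρ h + g.P ρ h)) ≤ f.c ρ h + g.c ρ h + (b + b')
    have h1 := mul_le_mul_of_nonneg_left key hρ.le
    have h2 := hf.mass
    have h3 := hg.mass
    rw [mul_add] at h1
    linarith
  · show k * ((f.w ρ h + g.w ρ h) ^ 2 / (f.P ρ h + g.P ρ h)) / ρ ≤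
      (f.c1 ρ h + g.c1 ρ h) / ρ + (f.P1 ρ h + g.P1 ρ h) + (f.w2 ρ h + g.w2 ρ h)
    have h1 := div_le_div_of_nonneg_right (mul_le_mul_of_nonneg_left key hk) hρ.le
    have h2 := hf.hoop
    have h3 := hg.hoop
    rw [mul_add, add_div] at h1
    rw [add_div]
    linarith

theorem Adm.mono {k : ℕ} {b b' : ℝ} {f : Fld} {ρ h : ℝ} (hf : Adm k b f ρ h) (hb : b ≤ b') :
    Adm k b' f ρ h :=
  ⟨hf.nonneg, hf.zero, hf.mass.trans (by linarith), hf.hoop⟩

theorem Adm.scale {k : ℕ} {b ε : ℝ} (hε : 0 < ε) {f : Fld} {ρ h : ℝ}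
    (hf : Adm k b f (ρ / ε) (h / ε)) : Adm k b (f.scale ε) ρ h := by
  set w := f.w (ρ / ε) (h / ε) with hw
  set P := f.P (ρ / ε) (h / ε) with hP
  set c := f.c (ρ / ε) (h / ε) with hc
  set c1 := f.c1 (ρ / ε) (h / ε) with hc1
  set P1 := f.P1 (ρ / ε) (h / ε) with hP1
  set w2 := f.w2 (ρ / ε) (h / ε) with hw2
  have e1 : (w / ε) ^ 2 / (P / ε) = w ^ 2 / P / ε := by
    rcases eq_or_ne P 0 with h0 | h0
    · rw [h0]
      simp
    · field_simp
  refine ⟨?_, ?_, ?_, ?_⟩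
  · show 0 ≤ P / ε
    exact div_nonneg hf.nonneg hε.le
  · intro h0
    have h1 : P / ε = 0 := h0
    have h2 : P = 0 := by
      rcases div_eq_zero_iff.1 h1 with h3 | h3
      · exact h3
      · exact absurd h3 hε.ne'
    show w / ε = 0
    have h4 : w = 0 := hf.zero h2
    rw [h4, zero_div]
  · show ρ * ((w / ε) ^ 2 / (P / ε)) ≤ c + b
    have h1 : ρ / ε * (w ^ 2 / P) ≤ c + b := hf.mass
    rw [e1]
    calc ρ * (w ^ 2 / P / ε) = ρ / ε * (w ^ 2 / P) := by ring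
      _ ≤ c + b := h1
  · show k * ((w / ε) ^ 2 / (P / ε)) / ρ ≤ c1 / ε / ρ + P1 / ε ^ 2 + w2 / ε ^ 2
    have h1 : k * (w ^ 2 / P) / (ρ / ε) ≤ c1 / (ρ / ε) + P1 + w2 := hf.hoop
    have h2 := div_le_div_of_nonneg_right h1 (sq_nonneg ε)
    rw [e1]
    have e2 : k * (w ^ 2 / P / ε) / ρ = k * (w ^ 2 / P) / (ρ / ε) / ε ^ 2 := by
      rw [div_div_eq_mul_div]
      field_simp
    have e3 : c1 / ε / ρ + P1 / ε ^ 2 + w2 / ε ^ 2 = (c1 / (ρ / ε) + P1 + w2) / ε ^ 2 := by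
      rw [div_div_eq_mul_div, add_div, add_div]
      congr 2
      field_simp
    rw [e2, e3]
    exact h2

theorem adm_flat (k : ℕ) (c₀ ρ h : ℝ) : Adm k (-c₀) (Fld.flat c₀) ρ h := by
  refine ⟨le_rfl, fun _ => rfl, ?_, ?_⟩ <;> simp [Fld.flat]

/-- `x e^(-x) ≤ 3 / 8`. -/
lemma mul_exp_neg_le' (x : ℝ) : x * exp (-x) ≤ 3 / 8 := by
  have h1 : x ≤ exp (x - 1) := by
    have := Real.add_one_le_exp (x - 1)
    linarith
  have h2 : x * exp (-x) ≤ exp (x - 1) * exp (-x) :=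
    mul_le_mul_of_nonneg_right h1 (exp_pos _).le
  rw [← Real.exp_add, show x - 1 + -x = -1 by ring, Real.exp_neg 1] at h2
  have h3 : (8 : ℝ) / 3 ≤ exp 1 := by
    have := Real.exp_one_gt_d9
    linarith
  have h4 : (exp 1)⁻¹ ≤ ((8 : ℝ) / 3)⁻¹ := inv_anti₀ (by norm_num) h3
  norm_num at h4
  linarith

theorem adm_prod {k : ℕ} {l b d ρ : ℝ} (h : ℝ) {f f' f'' g g' : ℝ → ℝ} (hl : 0 ≤ l)
    (hρ : 0 < ρ) (hb : 0 ≤ b) (hd : 0 ≤ d) (hf : 0 ≤ f ρ) (hg : 0 < g ρ)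
    (h1 : ρ * (f ρ ^ 2 * l / g ρ) ≤ b) (h2 : -d ≤ (k - 1) * f ρ + ρ * f' ρ) {D : ℝ}
    (hD : 0 ≤ D) (h3 : -D ≤ k * f' ρ / ρ + f'' ρ)
    (h4 : 3 * l * f ρ + D + 2 * k * l * f ρ ^ 2 / (ρ * g ρ) ≤ g' ρ) :
    Adm k (b + d) (Fld.prod k l f f' f'' g g') ρ h := by
  have hk : (0 : ℝ) ≤ k := Nat.cast_nonneg k
  set x := l * h ^ 2 with hx
  have hx0 : 0 ≤ x := by positivity
  have e1 : -l * h ^ 2 = -x := by rw [hx]; ring
  set E := exp (-(x / 2)) with hE
  have hE0 : 0 < E := exp_pos _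
  have hE1 : E ≤ 1 := exp_le_one_iff.2 (by linarith)
  have eE : exp (-l * h ^ 2 / 2) = E := by rw [e1, hE]; congr 1; ring
  have eE2 : exp (-l * h ^ 2) = E ^ 2 := by
    rw [e1, hE, ← Real.exp_nat_mul]
    congr 1
    push_cast
    ring
  have hE3 : E ^ 2 = exp (-x) := by rw [← e1, eE2]
  -- the quotient
  have eQ : (2 * l * h * f ρ * E ^ 2) ^ 2 / (g ρ * E) = f ρ ^ 2 * l / g ρ * (4 * x * E ^ 3) := by
    rw [hx]
    field_simp
    ring
  have hA : 4 * x * E ^ 3 ≤ 1 := by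
    have h5 : E ^ 3 = exp (-(3 / 2 * x)) := by
      rw [hE, ← Real.exp_nat_mul]
      congr 1
      push_cast
      ring
    have h6 := mul_exp_neg_le' (3 / 2 * x)
    rw [h5]
    nlinarith [h6]
  have hB : 4 * x * E ^ 2 ≤ 2 := by
    have h6 := mul_exp_neg_le' x
    rw [hE3]
    nlinarith [h6]
  have hC : (4 * x - 2) * E ≤ 3 := by
    have h6 := mul_exp_neg_le' (x / 2)
    have h7 : (4 * x - 2) * E = 8 * (x / 2 * exp (-(x / 2))) - 2 * E := by rw [hE]; ring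
    rw [h7]
    linarith
  refine ⟨?_, ?_, ?_, ?_⟩
  · show 0 ≤ g ρ * exp (-l * h ^ 2 / 2)
    positivity
  · intro h0
    have h5 : g ρ * exp (-l * h ^ 2 / 2) = 0 := h0
    exact absurd h5 (mul_pos hg (exp_pos _)).ne'
  · show ρ * ((2 * l * h * f ρ * exp (-l * h ^ 2)) ^ 2 / (g ρ * exp (-l * h ^ 2 / 2))) ≤
      ((k - 1) * f ρ + ρ * f' ρ) * exp (-l * h ^ 2) + (b + d)
    rw [eE, eE2, eQ]
    have h5 : ρ * (f ρ ^ 2 * l / g ρ * (4 * x * E ^ 3)) ≤ b := by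
      have h6 : 0 ≤ ρ * (f ρ ^ 2 * l / g ρ) := by positivity
      calc ρ * (f ρ ^ 2 * l / g ρ * (4 * x * E ^ 3)) =
          ρ * (f ρ ^ 2 * l / g ρ) * (4 * x * E ^ 3) := by ring
        _ ≤ ρ * (f ρ ^ 2 * l / g ρ) * 1 := mul_le_mul_of_nonneg_left hA h6
        _ ≤ b := by rw [mul_one]; exact h1
    have h7 : -d ≤ ((k - 1) * f ρ + ρ * f' ρ) * E ^ 2 := by
      have h8 : E ^ 2 ≤ 1 := pow_le_one₀ hE0.le hE1
      have h9 : -d * E ^ 2 ≤ ((k - 1) * f ρ + ρ * f' ρ) * E ^ 2 :=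
        mul_le_mul_of_nonneg_right h2 (by positivity)
      nlinarith
    linarith
  · show k * ((2 * l * h * f ρ * exp (-l * h ^ 2)) ^ 2 / (g ρ * exp (-l * h ^ 2 / 2))) / ρ ≤
      (k * f' ρ + ρ * f'' ρ) * exp (-l * h ^ 2) / ρ + g' ρ * exp (-l * h ^ 2 / 2) +
        (2 * l - 4 * l ^ 2 * h ^ 2) * f ρ * exp (-l * h ^ 2)
    rw [eE, eE2, eQ]
    have a1 : k * (f ρ ^ 2 * l / g ρ * (4 * x * E ^ 3)) / ρ =
        k * l * f ρ ^ 2 / (ρ * g ρ) * (4 * x * E ^ 2) * E := by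
      field_simp
    have a2 : (k * f' ρ + ρ * f'' ρ) * E ^ 2 / ρ = (k * f' ρ / ρ + f'' ρ) * E ^ 2 := by
      field_simp
    have a3 : (2 * l - 4 * l ^ 2 * h ^ 2) * f ρ * E ^ 2 = -(l * f ρ * ((4 * x - 2) * E)) * E := by
      rw [hx]; ring
    rw [a1, a2, a3]
    have q0 : 0 ≤ k * l * f ρ ^ 2 / (ρ * g ρ) := by positivity
    have b1 : k * l * f ρ ^ 2 / (ρ * g ρ) * (4 * x * E ^ 2) ≤
        k * l * f ρ ^ 2 / (ρ * g ρ) * 2 := mul_le_mul_of_nonneg_left hB q0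
    have b2 : l * f ρ * ((4 * x - 2) * E) ≤ l * f ρ * 3 :=
      mul_le_mul_of_nonneg_left hC (by positivity)
    have b3 : -D ≤ (k * f' ρ / ρ + f'' ρ) * E := by
      have h9 : -D * E ≤ (k * f' ρ / ρ + f'' ρ) * E := mul_le_mul_of_nonneg_right h3 hE0.le
      nlinarith
    have b4 : 2 * k * l * f ρ ^ 2 / (ρ * g ρ) = k * l * f ρ ^ 2 / (ρ * g ρ) * 2 := by ring
    rw [b4] at h4
    have b5 : k * l * f ρ ^ 2 / (ρ * g ρ) * (4 * x * E ^ 2) ≤
        (k * f' ρ / ρ + f'' ρ) * E + g' ρ + -(l * f ρ * ((4 * x - 2) * E)) := by linarith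
    have b6 := mul_le_mul_of_nonneg_right b5 hE0.le
    calc k * l * f ρ ^ 2 / (ρ * g ρ) * (4 * x * E ^ 2) * E ≤
        ((k * f' ρ / ρ + f'' ρ) * E + g' ρ + -(l * f ρ * ((4 * x - 2) * E))) * E := b6
      _ = _ := by ring

end Pool.Agent.Helper19.LB
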