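import Pool.Agent.Helper19.LB.Defs

/-! # Piece GR: Green's formula on a zone -/

set_option autoImplicit false

open MeasureTheory Set Real
open scoped ContDiff RealInnerProductSpace

namespace Pool.Agent.Helper19.LB

namespace Gr

lemma zz_nonneg (a : ℝ) : 0 ≤ zz a := Real.sqrt_nonneg _

lemma continuous_zz : Continuous zz := by
  unfold zz
  fun_prop

lemma lt_zz {a z : ℝ} (ha : 0 ≤ a) : a < zz z ↔ a ^ 2 + z ^ 2 < 1 := by
  unfold zz
  rw [Real.lt_sqrt ha]
  constructor <;> intro h <;> linarith

lemma mem_Ioo_zz {a z : ℝ} : z ∈ Ioo (-zz a) (zz a) ↔ a ^ 2 + z ^ 2 < 1 := by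
  have h := lt_zz (a := |z|) (z := a) (abs_nonneg z)
  rw [sq_abs, abs_lt, add_comm] at h
  exact h

lemma measurableSet_zone (α β : ℝ) : MeasurableSet (zone α β) := by
  have h1 : IsOpen (zone α β) := by
    have e : zone α β = {x : Pt | α < x.1} ∩ ({x : Pt | x.1 < β} ∩ {x : Pt | x.1 ^ 2 + x.2 ^ 2 < 1}) := by
      ext x
      rfl
    rw [e]
    refine (isOpen_lt continuous_const continuous_fst).inter
      ((isOpen_lt continuous_fst continuous_const).inter (isOpen_lt ?_ continuous_const))
    fun_prop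
  exact h1.measurableSet

/-- the axial part -/
lemma vpart {α β : ℝ} {V V2 : Pt → ℝ}
    (hV : ContinuousOn V (Icc α β ×ˢ univ)) (iV : IntegrableOn V2 (zone α β))
    (dV : ∀ x ∈ zone α β, HasDerivAt (fun z => V (x.1, z)) (V2 x) x.2) :
    ∫ x in zone α β, V2 x = ∫ ρ in Ioo α β, (V (ρ, zz ρ) - V (ρ, -zz ρ)) := by
  have hm := measurableSet_zone α β
  rw [← integral_indicator hm]
  have hint : Integrable ((zone α β).indicator V2) ((volume : Measure ℝ).prod volume) :=
    (integrable_indicator_iff hm).2 iV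
  have e0 : ∫ x : Pt, (zone α β).indicator V2 x =
      ∫ ρ : ℝ, ∫ z : ℝ, (zone α β).indicator V2 (ρ, z) := integral_prod _ hint
  rw [e0, ← integral_indicator measurableSet_Ioo]
  refine integral_congr_ae ?_
  filter_upwards [hint.prod_right_ae] with ρ hρ
  by_cases h : ρ ∈ Ioo α β
  · rw [indicator_of_mem h]
    have hs : (fun z => (zone α β).indicator V2 (ρ, z)) =
        (Ioo (-zz ρ) (zz ρ)).indicator (fun z => V2 (ρ, z)) := by
      funext z
      by_cases hz : z ∈ Ioo (-zz ρ) (zz ρ)
      · rw [indicator_of_mem hz, indicator_of_mem]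
        exact ⟨h.1, h.2, mem_Ioo_zz.1 hz⟩
      · rw [indicator_of_notMem hz, indicator_of_notMem]
        exact fun h' => hz (mem_Ioo_zz.2 h'.2.2)
    rw [hs] at hρ ⊢
    have hle : -zz ρ ≤ zz ρ := by linarith [zz_nonneg ρ]
    rw [integral_indicator measurableSet_Ioo, ← integral_Ioc_eq_integral_Ioo,
      ← intervalIntegral.integral_of_le hle]
    refine intervalIntegral.integral_eq_sub_of_hasDerivAt_of_le hle
      (f := fun z => V (ρ, z)) ?_ ?_ ?_
    · refine hV.comp (Continuous.continuousOn (by fun_prop)) fun z _ => ?_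
      exact ⟨⟨h.1.le, h.2.le⟩, mem_univ _⟩
    · intro z hz
      exact dV (ρ, z) ⟨h.1, h.2, mem_Ioo_zz.1 hz⟩
    · rw [intervalIntegrable_iff_integrableOn_Ioo_of_le hle]
      exact (integrable_indicator_iff measurableSet_Ioo).1 hρ
  · rw [indicator_of_notMem h]
    have : ∀ z, (zone α β).indicator V2 (ρ, z) = 0 := fun z =>
      indicator_of_notMem (fun h' => h ⟨h'.1, h'.2.1⟩) _
    simp [this]

/-- the radial part -/
lemma upart {α β : ℝ} (hα : 0 ≤ α) (hαβ : α < β) {U U1 : Pt → ℝ}
    (hU : ContinuousOn U (Icc α β ×ˢ univ)) (iU : IntegrableOn U1 (zone α β))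
    (dU : ∀ x ∈ zone α β, HasDerivAt (fun r => U (r, x.2)) (U1 x) x.1) :
    ∫ x in zone α β, U1 x = ∫ z in Ioo (-zz α) (zz α), (U (min β (zz z), z) - U (α, z)) := by
  have hm := measurableSet_zone α β
  rw [← integral_indicator hm]
  have hint : Integrable ((zone α β).indicator U1) ((volume : Measure ℝ).prod volume) :=
    (integrable_indicator_iff hm).2 iU
  have e0 : ∫ x : Pt, (zone α β).indicator U1 x =
      ∫ z : ℝ, ∫ ρ : ℝ, (zone α β).indicator U1 (ρ, z) := integral_prod_symm _ hint
  rw [e0, ← integral_indicator measurableSet_Ioo]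
  refine integral_congr_ae ?_
  filter_upwards [hint.prod_left_ae] with z hz
  by_cases h : z ∈ Ioo (-zz α) (zz α)
  · rw [indicator_of_mem h]
    have hz1 : α < zz z := (lt_zz hα).2 (mem_Ioo_zz.1 h)
    have hmin : α < min β (zz z) := lt_min hαβ hz1
    have hs : (fun ρ => (zone α β).indicator U1 (ρ, z)) =
        (Ioo α (min β (zz z))).indicator (fun ρ => U1 (ρ, z)) := by
      funext ρ
      by_cases hρ : ρ ∈ Ioo α (min β (zz z))
      · rw [indicator_of_mem hρ, indicator_of_mem]
        exact ⟨hρ.1, hρ.2.trans_le (min_le_left _ _),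
          (lt_zz (hα.trans hρ.1.le)).1 (hρ.2.trans_le (min_le_right _ _))⟩
      · rw [indicator_of_notMem hρ, indicator_of_notMem]
        intro h'
        exact hρ ⟨h'.1, lt_min h'.2.1 ((lt_zz (hα.trans h'.1.le)).2 h'.2.2)⟩
    rw [hs] at hz ⊢
    rw [integral_indicator measurableSet_Ioo, ← integral_Ioc_eq_integral_Ioo,
      ← intervalIntegral.integral_of_le hmin.le]
    refine intervalIntegral.integral_eq_sub_of_hasDerivAt_of_le hmin.le
      (f := fun r => U (r, z)) ?_ ?_ ?_
    · refine hU.comp (Continuous.continuousOn (by fun_prop)) fun r hr => ?_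
      exact ⟨⟨hr.1, hr.2.trans (min_le_left _ _)⟩, mem_univ _⟩
    · intro r hr
      exact dU (r, z) ⟨hr.1, hr.2.trans_le (min_le_left _ _),
          (lt_zz (hα.trans hr.1.le)).1 (hr.2.trans_le (min_le_right _ _))⟩
    · rw [intervalIntegrable_iff_integrableOn_Ioo_of_le hmin.le]
      exact (integrable_indicator_iff measurableSet_Ioo).1 hz
  · rw [indicator_of_notMem h]
    have : ∀ ρ, (zone α β).indicator U1 (ρ, z) = 0 := fun ρ =>
      indicator_of_notMem (fun h' => h (mem_Ioo_zz.2 (by
        have h1 : α ^ 2 ≤ ρ ^ 2 := pow_le_pow_left₀ hα h'.1.le 2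
        have h2 : ρ ^ 2 + z ^ 2 < 1 := h'.2.2
        linarith))) _
    simp [this]

lemma arc_eq {α β : ℝ} (hα : 0 ≤ α) (hαβ : α < β) (hβ : β ≤ 1) :
    arc α β = Ioo (arcsin α) (arcsin β) ∪ Ioo (π - arcsin β) (π - arcsin α) := by
  have hpi := Real.pi_pos
  have h0 : 0 ≤ arcsin α := Real.arcsin_nonneg.2 hα
  have h1 : arcsin β ≤ π / 2 := Real.arcsin_le_pi_div_two β
  have key : ∀ s, 0 < s → s < π / 2 →
      ((α < sin s ∧ sin s < β) ↔ (arcsin α < s ∧ s < arcsin β)) := by
    intro s hs0 hs1
    rw [Real.arcsin_lt_iff_lt_sin' ⟨by linarith, hs1.le⟩,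
      Real.lt_arcsin_iff_sin_lt' ⟨by linarith, hs1⟩]
  ext s
  constructor
  · rintro ⟨hs0, hs1, hs2, hs3⟩
    rcases lt_trichotomy s (π / 2) with h | h | h
    · exact Or.inl ((key s hs0 h).1 ⟨hs2, hs3⟩)
    · rw [h, Real.sin_pi_div_two] at hs3
      linarith
    · right
      have h2 := (key (π - s) (by linarith) (by linarith)).1
        ⟨by rwa [Real.sin_pi_sub], by rwa [Real.sin_pi_sub]⟩
      exact ⟨by linarith [h2.2], by linarith [h2.1]⟩
  · rintro (⟨h2, h3⟩ | ⟨h2, h3⟩)
    · have h4 := (key s (by linarith) (by linarith)).2 ⟨h2, h3⟩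
      exact ⟨by linarith, by linarith, h4.1, h4.2⟩
    · have h4 := (key (π - s) (by linarith) (by linarith)).2 ⟨by linarith, by linarith⟩
      rw [Real.sin_pi_sub] at h4
      exact ⟨by linarith, by linarith, h4.1, h4.2⟩

lemma zz_sin {s : ℝ} (h0 : -(π / 2) ≤ s) (h1 : s ≤ π / 2) : zz (sin s) = cos s := by
  unfold zz
  rw [Real.cos_eq_sqrt_one_sub_sin_sq h0 h1]

lemma zz_cos {s : ℝ} (h0 : 0 ≤ s) (h1 : s ≤ π) : zz (cos s) = sin s := by
  unfold zz
  rw [Real.sin_eq_sqrt_one_sub_cos_sq h0 h1]

open intervalIntegral in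
theorem arc_integral {α β : ℝ} (hα : 0 ≤ α) (hαβ : α < β) (hβ : β ≤ 1) {G : ℝ → ℝ}
    (h1 : ContinuousOn G (Icc (arcsin α) (arcsin β)))
    (h2 : ContinuousOn (fun t => G (π - t)) (Icc (arcsin α) (arcsin β))) :
    ∫ s in arc α β, G s = (∫ t in (arcsin α)..(arcsin β), G t) +
      ∫ t in (arcsin α)..(arcsin β), G (π - t) := by
  have hab : arcsin α ≤ arcsin β := Real.monotone_arcsin hαβ.le
  have hb : arcsin β ≤ π / 2 := Real.arcsin_le_pi_div_two β
  have e : ∫ t in (arcsin α)..(arcsin β), G (π - t) =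
      ∫ t in (π - arcsin β)..(π - arcsin α), G t := integral_comp_sub_left G π
  have i1 : IntervalIntegrable G volume (arcsin α) (arcsin β) := by
    apply ContinuousOn.intervalIntegrable
    rwa [uIcc_of_le hab]
  have i2 : IntervalIntegrable G volume (π - arcsin β) (π - arcsin α) := by
    have h3 : IntervalIntegrable (fun t => G (π - t)) volume (arcsin α) (arcsin β) := by
      apply ContinuousOn.intervalIntegrable
      rwa [uIcc_of_le hab]
    have h4 := h3.comp_sub_left π
    simp only [sub_sub_cancel] at h4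
    exact h4.symm
  rw [e, integral_of_le hab, integral_of_le (by linarith : π - arcsin β ≤ π - arcsin α),
    integral_Ioc_eq_integral_Ioo, integral_Ioc_eq_integral_Ioo, arc_eq hα hαβ hβ]
  refine setIntegral_union ?_ measurableSet_Ioo ?_ ?_
  · rw [Set.disjoint_left]
    rintro s ⟨_, hs1⟩ ⟨hs2, _⟩
    linarith
  · exact (intervalIntegrable_iff_integrableOn_Ioo_of_le hab).1 i1
  · exact (intervalIntegrable_iff_integrableOn_Ioo_of_le (by linarith)).1 i2

end Gr

open Gr in
theorem green {α β : ℝ} (hα : 0 ≤ α) (hαβ : α < β) (hβ : β ≤ 1) {U V U1 V2 : Pt → ℝ}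
    (hU : ContinuousOn U (Icc α β ×ˢ univ)) (hV : ContinuousOn V (Icc α β ×ˢ univ))
    (iU : IntegrableOn U1 (zone α β)) (iV : IntegrableOn V2 (zone α β))
    (dU : ∀ x ∈ zone α β, HasDerivAt (fun r => U (r, x.2)) (U1 x) x.1)
    (dV : ∀ x ∈ zone α β, HasDerivAt (fun z => V (x.1, z)) (V2 x) x.2) :
    ∫ x in zone α β, (U1 x + V2 x) =
      (∫ s in arc α β, (sin s * U (sin s, cos s) + cos s * V (sin s, cos s))) +
      (∫ z in Ioo (-zz β) (zz β), U (β, z)) - ∫ z in Ioo (-zz α) (zz α), U (α, z) := by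
  have hpi := Real.pi_pos
  have hα1 : α ≤ 1 := hαβ.le.trans hβ
  have hβ0 : 0 ≤ β := hα.trans hαβ.le
  set a := arcsin α with ha
  set b := arcsin β with hb
  have hab : a ≤ b := Real.monotone_arcsin hαβ.le
  have ha0 : 0 ≤ a := Real.arcsin_nonneg.2 hα
  have hb1 : b ≤ π / 2 := Real.arcsin_le_pi_div_two β
  have hsa : sin a = α := Real.sin_arcsin (by linarith) hα1
  have hsb : sin b = β := Real.sin_arcsin (by linarith) hβ
  have hca : cos a = zz α := by rw [← hsa, zz_sin (by linarith) (by linarith)]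
  have hcb : cos b = zz β := by rw [← hsb, zz_sin (by linarith) (by linarith)]
  have hzz : zz β ≤ zz α := by
    rw [← hca, ← hcb]
    exact Real.cos_le_cos_of_nonneg_of_le_pi ha0 (by linarith) hab
  have hsin : ∀ t ∈ Icc a b, sin t ∈ Icc α β := fun t ht => by
    rw [← hsa, ← hsb]
    exact ⟨Real.sin_le_sin_of_le_of_le_pi_div_two (by linarith) (ht.2.trans hb1) ht.1,
      Real.sin_le_sin_of_le_of_le_pi_div_two (by linarith [ht.1]) hb1 ht.2⟩
  have hcomp : ∀ {F : Pt → ℝ}, ContinuousOn F (Icc α β ×ˢ univ) → ∀ {g : ℝ → ℝ},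
      Continuous g → ContinuousOn (fun t => F (sin t, g t)) (Icc a b) := by
    intro F hF g hg
    exact hF.comp (Continuous.continuousOn (by fun_prop)) fun t ht => ⟨hsin t ht, mem_univ _⟩
  -- the arc
  rw [arc_integral hα hαβ hβ (G := fun s => sin s * U (sin s, cos s) + cos s * V (sin s, cos s))
    ((continuous_sin.continuousOn.mul (hcomp hU continuous_cos)).add
      (continuous_cos.continuousOn.mul (hcomp hV continuous_cos)))
    (by
      have h1 : ContinuousOn (fun t => sin t * U (sin t, -cos t) + -cos t * V (sin t, -cos t))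
          (Icc a b) :=
        (continuous_sin.continuousOn.mul (hcomp hU continuous_cos.neg)).add
          (continuous_cos.neg.continuousOn.mul (hcomp hV continuous_cos.neg))
      refine h1.congr fun t _ => ?_
      simp only [Real.sin_pi_sub, Real.cos_pi_sub])]
  simp only [Real.sin_pi_sub, Real.cos_pi_sub]
  rw [← ha, ← hb]
  have ii : ∀ {F : ℝ → ℝ}, ContinuousOn F (Icc a b) → IntervalIntegrable F volume a b :=
    fun hF => by
      apply ContinuousOn.intervalIntegrable
      rwa [uIcc_of_le hab]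
  have jU1 : IntervalIntegrable (fun t => sin t * U (sin t, cos t)) volume a b :=
    ii (continuous_sin.continuousOn.mul (hcomp hU continuous_cos))
  have jV1 : IntervalIntegrable (fun t => cos t * V (sin t, cos t)) volume a b :=
    ii (continuous_cos.continuousOn.mul (hcomp hV continuous_cos))
  have jU2 : IntervalIntegrable (fun t => sin t * U (sin t, -cos t)) volume a b :=
    ii (continuous_sin.continuousOn.mul (hcomp hU continuous_cos.neg))
  have jV2 : IntervalIntegrable (fun t => -cos t * V (sin t, -cos t)) volume a b :=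
    ii (continuous_cos.neg.continuousOn.mul (hcomp hV continuous_cos.neg))
  rw [intervalIntegral.integral_add jU1 jV1, intervalIntegral.integral_add jU2 jV2,
    integral_add iU iV, vpart hV iV dV, upart hα hαβ hU iU dU]
  -- the axial part
  have cz : ∀ {F : Pt → ℝ}, ContinuousOn F (Icc α β ×ˢ univ) → ∀ {g : ℝ → ℝ},
      Continuous g → ContinuousOn (fun ρ => F (ρ, g ρ)) (Icc α β) := by
    intro F hF g hg
    exact hF.comp (Continuous.continuousOn (by fun_prop)) fun t ht => ⟨ht, mem_univ _⟩
  have cV1 : ContinuousOn (fun ρ => V (ρ, zz ρ)) (Icc α β) := cz hV continuous_zz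
  have cV2 : ContinuousOn (fun ρ => V (ρ, -zz ρ)) (Icc α β) := cz hV continuous_zz.neg
  have himg : sin '' uIcc a b ⊆ Icc α β := by
    rintro _ ⟨t, ht, rfl⟩
    rw [uIcc_of_le hab] at ht
    exact hsin t ht
  have eV1 : ∫ t in a..b, cos t * V (sin t, cos t) = ∫ ρ in α..β, V (ρ, zz ρ) := by
    have h1 := intervalIntegral.integral_comp_mul_deriv'' (f := sin) (f' := cos) (a := a) (b := b)
      (g := fun ρ => V (ρ, zz ρ)) continuous_sin.continuousOn
      (fun x _ => (Real.hasDerivAt_sin x).hasDerivWithinAt) continuous_cos.continuousOn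
      (cV1.mono himg)
    rw [hsa, hsb] at h1
    rw [← h1]
    refine intervalIntegral.integral_congr fun t ht => ?_
    rw [uIcc_of_le hab] at ht
    simp only [Function.comp]
    rw [zz_sin (by linarith [ht.1]) (by linarith [ht.2]), mul_comm]
  have eV2 : ∫ t in a..b, -cos t * V (sin t, -cos t) = -∫ ρ in α..β, V (ρ, -zz ρ) := by
    have h1 := intervalIntegral.integral_comp_mul_deriv'' (f := sin) (f' := cos) (a := a) (b := b)
      (g := fun ρ => V (ρ, -zz ρ)) continuous_sin.continuousOn
      (fun x _ => (Real.hasDerivAt_sin x).hasDerivWithinAt) continuous_cos.continuousOn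
      (cV2.mono himg)
    rw [hsa, hsb] at h1
    rw [← h1, ← intervalIntegral.integral_neg]
    refine intervalIntegral.integral_congr fun t ht => ?_
    rw [uIcc_of_le hab] at ht
    simp only [Function.comp]
    rw [zz_sin (by linarith [ht.1]) (by linarith [ht.2])]
    ring
  have eV : ∫ ρ in Ioo α β, (V (ρ, zz ρ) - V (ρ, -zz ρ)) =
      (∫ ρ in α..β, V (ρ, zz ρ)) - ∫ ρ in α..β, V (ρ, -zz ρ) := by
    rw [← integral_Ioc_eq_integral_Ioo, ← intervalIntegral.integral_of_le hαβ.le,
      intervalIntegral.integral_sub]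
    · apply ContinuousOn.intervalIntegrable
      rwa [uIcc_of_le hαβ.le]
    · apply ContinuousOn.intervalIntegrable
      rwa [uIcc_of_le hαβ.le]
  -- the radial part
  have hz0 := zz_nonneg β
  have hz1 := zz_nonneg α
  have hz2 : zz α ≤ 1 := by rw [← hca]; exact Real.cos_le_one _
  have hmm : ∀ z, min β (max α (zz z)) ∈ Icc α β := fun z =>
    ⟨le_min hαβ.le (le_max_left _ _), min_le_left _ _⟩
  have cM : Continuous fun z => U (min β (max α (zz z)), z) := by
    have h1 : Continuous fun z : ℝ => ((min β (max α (zz z)), z) : Pt) :=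
      (continuous_const.min (continuous_const.max continuous_zz)).prodMk continuous_id
    exact hU.comp_continuous h1 fun z => ⟨hmm z, mem_univ _⟩
  have cA : Continuous fun z => U (α, z) :=
    hU.comp_continuous (by fun_prop) fun z => ⟨⟨le_rfl, hαβ.le⟩, mem_univ _⟩
  have eM : ∀ z ∈ Icc (-zz α) (zz α), U (min β (zz z), z) = U (min β (max α (zz z)), z) := by
    intro z hz
    have h1 : |z| ≤ zz α := abs_le.2 hz
    have h2 : α ≤ zz z := by
      unfold zz at h1 ⊢
      apply Real.le_sqrt_of_sq_le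
      have h3 : |z| ^ 2 ≤ √(1 - α ^ 2) ^ 2 := pow_le_pow_left₀ (abs_nonneg z) h1 2
      rw [sq_abs, Real.sq_sqrt (by nlinarith)] at h3
      linarith
    rw [max_eq_right h2]
  have eU : ∫ z in Ioo (-zz α) (zz α), (U (min β (zz z), z) - U (α, z)) =
      (∫ z in (-zz α)..(zz α), U (min β (max α (zz z)), z)) -
        ∫ z in Ioo (-zz α) (zz α), U (α, z) := by
    rw [← integral_Ioc_eq_integral_Ioo (f := fun z => U (α, z)),
      ← intervalIntegral.integral_of_le (by linarith : -zz α ≤ zz α),
      ← integral_Ioc_eq_integral_Ioo, ← intervalIntegral.integral_of_le (by linarith),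
      ← intervalIntegral.integral_sub (cM.intervalIntegrable _ _) (cA.intervalIntegrable _ _)]
    refine intervalIntegral.integral_congr fun z hz => ?_
    rw [uIcc_of_le (by linarith)] at hz
    rw [eM z hz]
  have split : ∫ z in (-zz α)..(zz α), U (min β (max α (zz z)), z) =
      (∫ z in (-zz α)..(-zz β), U (min β (max α (zz z)), z)) +
      (∫ z in (-zz β)..(zz β), U (min β (max α (zz z)), z)) +
      ∫ z in (zz β)..(zz α), U (min β (max α (zz z)), z) := by
    rw [intervalIntegral.integral_add_adjacent_intervals (cM.intervalIntegrable _ _)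
      (cM.intervalIntegrable _ _),
      intervalIntegral.integral_add_adjacent_intervals (cM.intervalIntegrable _ _)
      (cM.intervalIntegrable _ _)]
  have emid : ∫ z in (-zz β)..(zz β), U (min β (max α (zz z)), z) =
      ∫ z in Ioo (-zz β) (zz β), U (β, z) := by
    rw [← integral_Ioc_eq_integral_Ioo, ← intervalIntegral.integral_of_le (by linarith)]
    refine intervalIntegral.integral_congr fun z hz => ?_
    rw [uIcc_of_le (by linarith)] at hz
    have h1 : |z| ≤ zz β := abs_le.2 hz
    have h2 : β ≤ zz z := by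
      unfold zz at h1 ⊢
      apply Real.le_sqrt_of_sq_le
      have h3 : |z| ^ 2 ≤ √(1 - β ^ 2) ^ 2 := pow_le_pow_left₀ (abs_nonneg z) h1 2
      rw [sq_abs, Real.sq_sqrt (by nlinarith)] at h3
      linarith
    rw [min_eq_left (h2.trans (le_max_right _ _))]
  have hM : ∀ t ∈ Icc a b, min β (max α (sin t)) = sin t := fun t ht => by
    rw [max_eq_right (hsin t ht).1, min_eq_right (hsin t ht).2]
  have eR : ∫ t in a..b, sin t * U (sin t, cos t) =
      ∫ z in (zz β)..(zz α), U (min β (max α (zz z)), z) := by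
    have h1 := intervalIntegral.integral_comp_mul_deriv'' (f := cos) (f' := fun x => -sin x)
      (a := a) (b := b) (g := fun z => U (min β (max α (zz z)), z)) continuous_cos.continuousOn
      (fun x _ => (Real.hasDerivAt_cos x).hasDerivWithinAt) continuous_sin.neg.continuousOn
      cM.continuousOn
    rw [hca, hcb] at h1
    rw [intervalIntegral.integral_symm (zz α) (zz β), ← h1, ← intervalIntegral.integral_neg]
    refine intervalIntegral.integral_congr fun t ht => ?_
    rw [uIcc_of_le hab] at ht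
    simp only [Function.comp]
    rw [zz_cos (by linarith [ht.1]) (by linarith [ht.2]), hM t ht]
    ring
  have eL : ∫ t in a..b, sin t * U (sin t, -cos t) =
      ∫ z in (-zz α)..(-zz β), U (min β (max α (zz z)), z) := by
    have h1 := intervalIntegral.integral_comp_mul_deriv'' (f := fun x => -cos x)
      (f' := fun x => sin x)
      (a := a) (b := b) (g := fun z => U (min β (max α (zz z)), z)) continuous_cos.neg.continuousOn
      (fun x _ => by
        have := (Real.hasDerivAt_cos x).neg
        rw [neg_neg] at this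
        exact this.hasDerivWithinAt) continuous_sin.continuousOn
      cM.continuousOn
    rw [hca, hcb] at h1
    rw [← h1]
    refine intervalIntegral.integral_congr fun t ht => ?_
    rw [uIcc_of_le hab] at ht
    simp only [Function.comp]
    have h2 : zz (-cos t) = sin t := by
      rw [← zz_cos (s := t) (by linarith [ht.1]) (by linarith [ht.2])]
      unfold zz
      rw [neg_sq]
    rw [h2, hM t ht]
    ring
  rw [eU, split, emid, eV, eR, eL, eV1, eV2]
  ring

end Pool.Agent.Helper19.LB
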